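import Pool.Agent.TH274.MA.Sgn

/-!
# Two cases of Green's hyperplane restriction theorem

For a subspace `I` of the polynomial ring with codimension at most `s` (at most `2 s`) in the forms
of degree `s` and a general linear form `ℓ` the space `I + ℓ R_{s-1}` has codimension `0`
(at most `1`) in the forms of degree `s`.
-/

open MvPolynomial Finset Module

namespace Pool.Agent.TH274.GR

open Pool.Agent.W515.SLP Pool.Agent.TH274.MA

variable {K : Type*} [Field K] {n : ℕ}

/-- The codimension of `I` in the forms of degree `q`. -/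
noncomputable def cd (I : Submodule K (MvPolynomial (Fin n) K)) (q : ℕ) : ℕ :=
  finrank K ((homogeneousSubmodule (Fin n) K q).map I.mkQ)

/-- `I + ℓ R_{s-1}`. -/
noncomputable def cut (I : Submodule K (MvPolynomial (Fin n) K)) (l : MvPolynomial (Fin n) K) :
    ℕ → Submodule K (MvPolynomial (Fin n) K)
  | 0 => I
  | (s + 1) => I ⊔ (homogeneousSubmodule (Fin n) K s).map (LinearMap.mulLeft K l)

/-- `I : ℓ`. -/
noncomputable def colon (I : Submodule K (MvPolynomial (Fin n) K)) (l : MvPolynomial (Fin n) K) :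
    Submodule K (MvPolynomial (Fin n) K) := I.comap (LinearMap.mulLeft K l)

lemma mem_colon {I : Submodule K (MvPolynomial (Fin n) K)} {l g : MvPolynomial (Fin n) K} :
    g ∈ colon I l ↔ l * g ∈ I := Iff.rfl

instance finite_hS (q : ℕ) : Module.Finite K (homogeneousSubmodule (Fin n) K q) :=
  Module.Finite.iff_fg.2 (homogeneousSubmodule_fg _ _ q)

/-- Rank and nullity for two quotients. -/
lemma finrank_two {P : Type*} [AddCommGroup P] [Module K P] (H I J : Submodule K P)
    [Module.Finite K H] (hIJ : I ≤ J) :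
    finrank K ((H ⊓ J).map I.mkQ) + finrank K (H.map J.mkQ) = finrank K (H.map I.mkQ) := by
  have h1 := finrank_map_ker (J.mkQ.comp H.subtype) (I.mkQ.comp H.subtype) (by
    intro x hx
    rw [LinearMap.mem_ker] at hx ⊢
    have h2 : (x : P) ∈ I := (Submodule.Quotient.mk_eq_zero I).1 hx
    exact (Submodule.Quotient.mk_eq_zero J).2 (hIJ h2))
  rw [LinearMap.range_comp, LinearMap.range_comp, Submodule.range_subtype] at h1
  have h2 : (LinearMap.ker (J.mkQ.comp H.subtype)).map (I.mkQ.comp H.subtype) =
      (H ⊓ J).map I.mkQ := by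
    ext y
    constructor
    · rintro ⟨x, hx, rfl⟩
      exact ⟨x, ⟨x.2, (Submodule.Quotient.mk_eq_zero J).1 hx⟩, rfl⟩
    · rintro ⟨x, ⟨hxH, hxJ⟩, rfl⟩
      exact ⟨⟨x, hxH⟩, (Submodule.Quotient.mk_eq_zero J).2 hxJ, rfl⟩
  rw [h2] at h1
  exact h1

lemma cd_mono {I J : Submodule K (MvPolynomial (Fin n) K)} (h : I ≤ J) (q : ℕ) :
    cd J q ≤ cd I q := by
  have := finrank_two (homogeneousSubmodule (Fin n) K q) I J h
  unfold cd
  omega

lemma le_cut (I : Submodule K (MvPolynomial (Fin n) K)) (l : MvPolynomial (Fin n) K) (s : ℕ) :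
    I ≤ cut I l s := by
  cases s with
  | zero => exact le_rfl
  | succ s => exact le_sup_left

/-- The rank of the multiplication. -/
noncomputable def rk (I : Submodule K (MvPolynomial (Fin n) K)) (l : MvPolynomial (Fin n) K)
    (s : ℕ) : ℕ :=
  finrank K (LinearMap.range ((I.mkQ.comp (LinearMap.mulLeft K l)).comp
    (homogeneousSubmodule (Fin n) K s).subtype))

lemma rk_eq (I : Submodule K (MvPolynomial (Fin n) K)) (l : MvPolynomial (Fin n) K) (s : ℕ) :
    rk I l s = cd (colon I l) s := by
  have e1 := LinearMap.finrank_range_add_finrank_ker ((I.mkQ.comp (LinearMap.mulLeft K l)).comp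
    (homogeneousSubmodule (Fin n) K s).subtype)
  have e2 := LinearMap.finrank_range_add_finrank_ker ((colon I l).mkQ.comp
    (homogeneousSubmodule (Fin n) K s).subtype)
  have h1 : LinearMap.ker ((I.mkQ.comp (LinearMap.mulLeft K l)).comp
      (homogeneousSubmodule (Fin n) K s).subtype) = LinearMap.ker ((colon I l).mkQ.comp
    (homogeneousSubmodule (Fin n) K s).subtype) := by
    ext x
    rw [LinearMap.mem_ker, LinearMap.mem_ker]
    constructor
    · intro h
      exact (Submodule.Quotient.mk_eq_zero (colon I l)).2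
        (show l * (x : MvPolynomial (Fin n) K) ∈ I from (Submodule.Quotient.mk_eq_zero I).1 h)
    · intro h
      exact (Submodule.Quotient.mk_eq_zero I).2
        (show l * (x : MvPolynomial (Fin n) K) ∈ I from
          (Submodule.Quotient.mk_eq_zero (colon I l)).1 h)
  have h2 : cd (colon I l) s = finrank K (LinearMap.range ((colon I l).mkQ.comp
      (homogeneousSubmodule (Fin n) K s).subtype)) := by
    rw [LinearMap.range_comp, Submodule.range_subtype]
    rfl
  rw [h1] at e1
  rw [h2]
  unfold rk
  omega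

lemma cd_cut_add (I : Submodule K (MvPolynomial (Fin n) K)) {l : MvPolynomial (Fin n) K}
    (hl : l.IsHomogeneous 1) (s : ℕ) : cd (cut I l (s + 1)) (s + 1) + rk I l s = cd I (s + 1) := by
  have h1 := finrank_two (homogeneousSubmodule (Fin n) K (s + 1)) I (cut I l (s + 1))
    (le_cut I l _)
  have h2 : (homogeneousSubmodule (Fin n) K (s + 1) ⊓ cut I l (s + 1)).map I.mkQ =
      LinearMap.range ((I.mkQ.comp (LinearMap.mulLeft K l)).comp
        (homogeneousSubmodule (Fin n) K s).subtype) := by
    ext y
    constructor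
    · rintro ⟨x, ⟨hxH, hxJ⟩, rfl⟩
      obtain ⟨u, hu, v, hv, rfl⟩ := Submodule.mem_sup.1 hxJ
      obtain ⟨g, hg, rfl⟩ := Submodule.mem_map.1 hv
      refine ⟨⟨g, hg⟩, ?_⟩
      rw [map_add, show I.mkQ u = 0 from (Submodule.Quotient.mk_eq_zero I).2 hu, zero_add]
      rfl
    · rintro ⟨g, rfl⟩
      refine ⟨l * (g : MvPolynomial (Fin n) K), ⟨?_, ?_⟩, rfl⟩
      · have := hl.mul g.2
        rw [add_comm] at this
        exact this
      · exact Submodule.mem_sup_right ⟨g, g.2, rfl⟩
  rw [h2] at h1
  unfold cd rk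
  rw [← h1, add_comm]

/-- The basic inequality for two linear forms. -/
lemma cut_two (I : Submodule K (MvPolynomial (Fin n) K)) {l l' : MvPolynomial (Fin n) K}
    (hl : l.IsHomogeneous 1) (s : ℕ) : cd (cut I l' (s + 1)) (s + 1) ≤
      cd (cut (cut I l (s + 1)) l' (s + 1)) (s + 1) + cd (cut (colon I l) l' s) s := by
  have h1 := cd_cut_add (cut I l' (s + 1)) hl s
  rw [rk_eq] at h1
  have h2 : cd (colon (cut I l' (s + 1)) l) s ≤ cd (cut (colon I l) l' s) s := by
    apply cd_mono
    cases s with
    | zero =>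
      intro g hg
      rw [mem_colon]
      exact le_cut I l' (0 + 1) (mem_colon.1 hg)
    | succ s =>
      apply sup_le
      · intro g hg
        rw [mem_colon]
        exact le_cut I l' (s + 1 + 1) (mem_colon.1 hg)
      · rintro _ ⟨g, hg, rfl⟩
        rw [mem_colon]
        refine Submodule.mem_sup_right ⟨l * g, ?_, ?_⟩
        · have := hl.mul hg
          rw [add_comm] at this
          exact this
        · simp only [LinearMap.mulLeft_apply]
          ring
  have h3 : cut (cut I l' (s + 1)) l (s + 1) = cut (cut I l (s + 1)) l' (s + 1) := by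
    simp only [cut]
    rw [sup_assoc, sup_assoc, sup_comm (Submodule.map _ _)]
  rw [h3] at h1
  omega

/-- Generic linear forms attain the smallest codimension. -/
lemma exists_min (I : Submodule K (MvPolynomial (Fin n) K)) (s : ℕ) :
    ∃ Q : MvPolynomial (Fin n) K, Q ≠ 0 ∧ ∀ a : Fin n → K, eval a Q ≠ 0 → ∀ a' : Fin n → K,
      cd (cut I (lin a) (s + 1)) (s + 1) ≤ cd (cut I (lin a') (s + 1)) (s + 1) := by
  obtain ⟨Q, hQ, h⟩ := exists_poly_max (fun x : Fin n =>
    (I.mkQ.comp (LinearMap.mulLeft K (X x : MvPolynomial (Fin n) K))).comp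
      (homogeneousSubmodule (Fin n) K s).subtype)
  have e : ∀ a : Fin n → K, ∑ x, a x • (I.mkQ.comp (LinearMap.mulLeft K
      (X x : MvPolynomial (Fin n) K))).comp (homogeneousSubmodule (Fin n) K s).subtype =
      (I.mkQ.comp (LinearMap.mulLeft K (lin a))).comp
        (homogeneousSubmodule (Fin n) K s).subtype := by
    intro a
    apply LinearMap.ext
    intro g
    simp only [LinearMap.sum_apply, LinearMap.smul_apply, LinearMap.comp_apply,
      LinearMap.mulLeft_apply, lin, Finset.sum_mul, map_sum]
    apply Finset.sum_congr rfl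
    intro x _
    rw [mul_assoc, ← smul_eq_C_mul, map_smul]
  refine ⟨Q, hQ, fun a ha a' => ?_⟩
  have h1 := h a ha a'
  rw [e, e] at h1
  have h2 := cd_cut_add I (lin_hom a) s
  have h3 := cd_cut_add I (lin_hom a') s
  unfold rk at h2 h3
  omega

/-- If no linear form lowers the codimension, the codimension is zero. -/
lemma cd_zero_of_min (I : Submodule K (MvPolynomial (Fin n) K)) (s : ℕ)
    (h : ∀ a : Fin n → K, cd (cut I (lin a) (s + 1)) (s + 1) = cd I (s + 1)) :
    cd I (s + 1) = 0 := by
  classical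
  have hX : ∀ x : Fin n, ∀ g ∈ homogeneousSubmodule (Fin n) K s, X x * g ∈ I := by
    intro x g hg
    have h1 := cd_cut_add I (lin_hom (Pi.single x 1 : Fin n → K)) s
    rw [h] at h1
    have h2 : rk I (lin (Pi.single x 1)) s = 0 := by omega
    unfold rk at h2
    rw [Submodule.finrank_eq_zero] at h2
    have h3 : I.mkQ (lin (Pi.single x 1) * g) = 0 := by
      have : I.mkQ (lin (Pi.single x 1) * g) ∈ LinearMap.range ((I.mkQ.comp
        (LinearMap.mulLeft K (lin (Pi.single x 1)))).comp
        (homogeneousSubmodule (Fin n) K s).subtype) := ⟨⟨g, hg⟩, rfl⟩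
      rw [h2] at this
      exact this
    have h4 : lin (Pi.single x 1 : Fin n → K) = X x := by
      unfold lin
      rw [Finset.sum_eq_single x]
      · simp
      · intro y _ hy
        rw [Pi.single_eq_of_ne hy]
        simp
      · intro h5
        exact absurd (Finset.mem_univ _) h5
    rw [h4] at h3
    exact (Submodule.Quotient.mk_eq_zero I).1 h3
  have hle : homogeneousSubmodule (Fin n) K (s + 1) ≤ I := by
    intro v hv
    rw [v.as_sum]
    apply Submodule.sum_mem
    intro t ht
    have hdeg : t.degree = s + 1 := by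
      by_contra hne
      exact (mem_support_iff.1 ht) (IsHomogeneous.coeff_eq_zero hv hne)
    have hne : t ≠ 0 := by
      rintro rfl
      simp at hdeg
    obtain ⟨x, hx⟩ := Finsupp.ne_iff.1 hne
    have hle : Finsupp.single x 1 ≤ t := by
      rw [Finsupp.single_le_iff]
      exact Nat.one_le_iff_ne_zero.2 hx
    have hs' : t = Finsupp.single x 1 + (t - Finsupp.single x 1) :=
      (add_tsub_cancel_of_le hle).symm
    have e : monomial t (coeff t v) = X x * monomial (t - Finsupp.single x 1) (coeff t v) := by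
      rw [X, monomial_mul, one_mul, ← hs']
    rw [e]
    apply hX
    apply isHomogeneous_monomial
    have := congrArg Finsupp.degree hs'
    rw [map_add, Finsupp.degree_single, hdeg] at this
    omega
  unfold cd
  rw [Submodule.finrank_eq_zero, eq_bot_iff]
  rintro _ ⟨v, hv, rfl⟩
  exact (Submodule.Quotient.mk_eq_zero I).2 (hle hv)

lemma cd_cut_le (I : Submodule K (MvPolynomial (Fin n) K)) (l : MvPolynomial (Fin n) K)
    (s q : ℕ) : cd (cut I l s) q ≤ cd I q := cd_mono (le_cut I l s) q

variable [Infinite K]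

lemma exists_ne_zero {Q : MvPolynomial (Fin n) K} (hQ : Q ≠ 0) : ∃ a, eval a Q ≠ 0 := by
  by_contra hcon
  push Not at hcon
  exact hQ (MvPolynomial.funext fun b => by rw [hcon b, map_zero])

/-- Green's theorem for codimension at most `s`. -/
theorem green_zero (s : ℕ) : ∀ I : Submodule K (MvPolynomial (Fin n) K), cd I s ≤ s →
    ∃ Q : MvPolynomial (Fin n) K, Q ≠ 0 ∧ ∀ a : Fin n → K, eval a Q ≠ 0 →
      cd (cut I (lin a) s) s = 0 := by
  induction s with
  | zero =>
    intro I hI
    refine ⟨1, one_ne_zero, fun a _ => ?_⟩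
    exact Nat.le_zero.1 hI
  | succ s ihs =>
    suffices h : ∀ c, ∀ I : Submodule K (MvPolynomial (Fin n) K), cd I (s + 1) ≤ c →
        cd I (s + 1) ≤ s + 1 → ∃ Q : MvPolynomial (Fin n) K, Q ≠ 0 ∧ ∀ a : Fin n → K,
          eval a Q ≠ 0 → cd (cut I (lin a) (s + 1)) (s + 1) = 0 from
      fun I hI => h _ I le_rfl hI
    intro c
    induction c with
    | zero =>
      intro I h0 _
      refine ⟨1, one_ne_zero, fun a _ => ?_⟩
      exact Nat.le_zero.1 ((cd_cut_le I _ _ _).trans h0)
    | succ c ihc =>
      intro I hIc hI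
      obtain ⟨Q, hQ, hmin⟩ := exists_min I s
      by_cases hall : ∀ a : Fin n → K, eval a Q ≠ 0 → cd (cut I (lin a) (s + 1)) (s + 1) = 0
      · exact ⟨Q, hQ, hall⟩
      exfalso
      push Not at hall
      obtain ⟨a, ha, hne⟩ := hall
      have hlt : cd (cut I (lin a) (s + 1)) (s + 1) < cd I (s + 1) := by
        apply lt_of_le_of_ne (cd_cut_le I _ _ _)
        intro heq
        have h0 := cd_zero_of_min I s (fun a' => by
          apply le_antisymm (cd_cut_le I _ _ _)
          rw [← heq]
          exact hmin a ha a')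
        have := cd_cut_le I (lin a) (s + 1) (s + 1)
        omega
      have hadd := cd_cut_add I (lin_hom a) s
      rw [rk_eq] at hadd
      obtain ⟨Q1, hQ1, h1⟩ := ihs (colon I (lin a)) (by omega)
      obtain ⟨Q2, hQ2, h2⟩ := ihc (cut I (lin a) (s + 1)) (by omega) (by omega)
      obtain ⟨a', ha'⟩ := exists_ne_zero (mul_ne_zero hQ1 hQ2)
      rw [map_mul] at ha'
      have h3 := cut_two I (l' := lin a') (lin_hom a) s
      rw [h1 a' (left_ne_zero_of_mul ha'), h2 a' (right_ne_zero_of_mul ha')] at h3
      have h4 := hmin a ha a'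
      omega

/-- Green's theorem for codimension at most `2 s`. -/
theorem green_one (s : ℕ) : ∀ I : Submodule K (MvPolynomial (Fin n) K), cd I s ≤ 2 * s →
    ∃ Q : MvPolynomial (Fin n) K, Q ≠ 0 ∧ ∀ a : Fin n → K, eval a Q ≠ 0 →
      cd (cut I (lin a) s) s ≤ 1 := by
  induction s with
  | zero =>
    intro I hI
    refine ⟨1, one_ne_zero, fun a _ => ?_⟩
    change cd I 0 ≤ 1
    omega
  | succ s ihs =>
    suffices h : ∀ c, ∀ I : Submodule K (MvPolynomial (Fin n) K), cd I (s + 1) ≤ c →
        cd I (s + 1) ≤ 2 * (s + 1) → ∃ Q : MvPolynomial (Fin n) K, Q ≠ 0 ∧ ∀ a : Fin n → K,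
          eval a Q ≠ 0 → cd (cut I (lin a) (s + 1)) (s + 1) ≤ 1 from
      fun I hI => h _ I le_rfl hI
    intro c
    induction c with
    | zero =>
      intro I h0 _
      refine ⟨1, one_ne_zero, fun a _ => ?_⟩
      have := (cd_cut_le I (lin a) (s + 1) (s + 1)).trans h0
      omega
    | succ c ihc =>
      intro I hIc hI
      obtain ⟨Q, hQ, hmin⟩ := exists_min I s
      by_cases hall : ∀ a : Fin n → K, eval a Q ≠ 0 → cd (cut I (lin a) (s + 1)) (s + 1) ≤ 1
      · exact ⟨Q, hQ, hall⟩
      exfalso
      push Not at hall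
      obtain ⟨a, ha, hne⟩ := hall
      have hlt : cd (cut I (lin a) (s + 1)) (s + 1) < cd I (s + 1) := by
        apply lt_of_le_of_ne (cd_cut_le I _ _ _)
        intro heq
        have h0 := cd_zero_of_min I s (fun a' => by
          apply le_antisymm (cd_cut_le I _ _ _)
          rw [← heq]
          exact hmin a ha a')
        omega
      have hadd := cd_cut_add I (lin_hom a) s
      rw [rk_eq] at hadd
      obtain ⟨Q1, hQ1, h1⟩ := ihs (colon I (lin a)) (by omega)
      obtain ⟨Q2, hQ2, h2⟩ := ihc (cut I (lin a) (s + 1)) (by omega) (by omega)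
      -- the codimension is two
      have hc2 : cd (cut I (lin a) (s + 1)) (s + 1) = 2 := by
        obtain ⟨a', ha'⟩ := exists_ne_zero (mul_ne_zero hQ1 hQ2)
        rw [map_mul] at ha'
        have h3 := cut_two I (l' := lin a') (lin_hom a) s
        have h4 := hmin a ha a'
        have h5 := h1 a' (left_ne_zero_of_mul ha')
        have h6 := h2 a' (right_ne_zero_of_mul ha')
        omega
      obtain ⟨Q3, hQ3, h3⟩ := green_zero (s + 1) (cut I (lin a) (s + 1)) (by omega)
      obtain ⟨a', ha'⟩ := exists_ne_zero (mul_ne_zero hQ1 hQ3)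
      rw [map_mul] at ha'
      have h4 := cut_two I (l' := lin a') (lin_hom a) s
      have h5 := hmin a ha a'
      have h6 := h1 a' (left_ne_zero_of_mul ha')
      have h7 := h3 a' (right_ne_zero_of_mul ha')
      omega

end Pool.Agent.TH274.GR
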