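import Pool.Agent.TH274.GR.Green
import Pool.Agent.TH274.MA.Core
import Pool.Agent.TH274.PT.Wlp

/-!
# Isotropic subspaces in graded Gorenstein algebras without injective multiplications
-/

open MvPolynomial Finset Module

namespace Pool.Agent.TH274.GR

open Pool.Agent.W515.SLP Pool.Agent.TH274.MA Pool.Agent.TH274.PT

variable {K : Type*} [Field K] {n : ℕ} {φ : MvPolynomial (Fin n) K →ₗ[K] K} {D : ℕ}

/-- The annihilator of the functional, as a subspace. -/
def annI (φ : MvPolynomial (Fin n) K →ₗ[K] K) : Submodule K (MvPolynomial (Fin n) K) where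
  carrier := {g | AnnP φ g}
  zero_mem' := annP_zero
  add_mem' := fun ha hb => AnnP.add ha hb
  smul_mem' := by
    intro r g hg
    change AnnP _ (r • g)
    rw [smul_eq_C_mul]
    exact AnnP.mul_left hg _

lemma mem_annI {g : MvPolynomial (Fin n) K} : g ∈ annI φ ↔ AnnP φ g := Iff.rfl

/-- The Hilbert function. -/
noncomputable def hil (φ : MvPolynomial (Fin n) K →ₗ[K] K) (j : ℕ) : ℕ := cd (annI φ) j

/-- The dimension modulo the annihilator. -/
noncomputable def dA (φ : MvPolynomial (Fin n) K →ₗ[K] K)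
    (W : Submodule K (MvPolynomial (Fin n) K)) : ℕ := finrank K (W.map (annI φ).mkQ)

/-- The orthogonal space. -/
def perp (φ : MvPolynomial (Fin n) K →ₗ[K] K) (W : Submodule K (MvPolynomial (Fin n) K)) :
    Submodule K (MvPolynomial (Fin n) K) where
  carrier := {g | ∀ w ∈ W, φ (g * w) = 0}
  zero_mem' := by
    intro w _
    rw [zero_mul, map_zero]
  add_mem' := by
    intro a b ha hb w hw
    rw [add_mul, map_add, ha w hw, hb w hw, add_zero]
  smul_mem' := by
    intro r g hg w hw
    rw [smul_mul_assoc, map_smul, hg w hw, smul_zero]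

lemma mem_perp {W : Submodule K (MvPolynomial (Fin n) K)} {g : MvPolynomial (Fin n) K} :
    g ∈ perp φ W ↔ ∀ w ∈ W, φ (g * w) = 0 := Iff.rfl

lemma le_of_cd_zero {I : Submodule K (MvPolynomial (Fin n) K)} {q : ℕ} (h : cd I q = 0)
    {v : MvPolynomial (Fin n) K} (hv : v.IsHomogeneous q) : v ∈ I := by
  unfold cd at h
  rw [Submodule.finrank_eq_zero, eq_bot_iff] at h
  exact (Submodule.Quotient.mk_eq_zero I).1 (h ⟨v, hv, rfl⟩)

/-- The orthogonal space of `W` has codimension at most the dimension of `W`. -/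
lemma cd_perp_le {W : Submodule K (MvPolynomial (Fin n) K)} [Module.Finite K W] (q : ℕ) :
    cd (perp φ W) q ≤ dA φ W := by
  -- functionals on `W` modulo the annihilator
  let Y := W.map (annI φ).mkQ
  let Θ : homogeneousSubmodule (Fin n) K q →ₗ[K] Module.Dual K Y :=
    { toFun := fun g => ((annI φ).liftQ (φ.comp (LinearMap.mulLeft K
        (g : MvPolynomial (Fin n) K))) (by
          intro u hu
          rw [LinearMap.mem_ker]
          change φ ((g : MvPolynomial (Fin n) K) * u) = 0
          rw [mul_comm]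
          exact hu _)).comp Y.subtype
      map_add' := by
        intro a b
        apply LinearMap.ext
        rintro ⟨_, ⟨w, hw, rfl⟩⟩
        change φ (((a + b : homogeneousSubmodule (Fin n) K q) : MvPolynomial (Fin n) K) * w) =
          φ ((a : MvPolynomial (Fin n) K) * w) + φ ((b : MvPolynomial (Fin n) K) * w)
        rw [Submodule.coe_add, add_mul, map_add]
      map_smul' := by
        intro r a
        apply LinearMap.ext
        rintro ⟨_, ⟨w, hw, rfl⟩⟩
        change φ (((r • a : homogeneousSubmodule (Fin n) K q) : MvPolynomial (Fin n) K) * w) =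
          r • φ ((a : MvPolynomial (Fin n) K) * w)
        rw [Submodule.coe_smul, smul_mul_assoc, map_smul] }
  have hker : LinearMap.ker Θ = LinearMap.ker ((perp φ W).mkQ.comp
      (homogeneousSubmodule (Fin n) K q).subtype) := by
    ext g
    rw [LinearMap.mem_ker, LinearMap.mem_ker]
    constructor
    · intro h
      refine (Submodule.Quotient.mk_eq_zero (perp φ W)).2 ?_
      intro w hw
      exact LinearMap.congr_fun h ⟨(annI φ).mkQ w, ⟨w, hw, rfl⟩⟩
    · intro h
      have h1 : (g : MvPolynomial (Fin n) K) ∈ perp φ W :=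
        (Submodule.Quotient.mk_eq_zero (perp φ W)).1 h
      apply LinearMap.ext
      rintro ⟨_, ⟨w, hw, rfl⟩⟩
      exact h1 w hw
  have e1 := LinearMap.finrank_range_add_finrank_ker Θ
  have e2 := LinearMap.finrank_range_add_finrank_ker ((perp φ W).mkQ.comp
      (homogeneousSubmodule (Fin n) K q).subtype)
  have e3 : cd (perp φ W) q = finrank K (LinearMap.range ((perp φ W).mkQ.comp
      (homogeneousSubmodule (Fin n) K q).subtype)) := by
    rw [LinearMap.range_comp, Submodule.range_subtype]
    rfl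
  have e4 : finrank K (LinearMap.range Θ) ≤ finrank K (Module.Dual K Y) :=
    Submodule.finrank_le _
  rw [Subspace.dual_finrank_eq] at e4
  rw [hker] at e1
  have e5 : dA φ W = finrank K Y := rfl
  omega

/-- The dimension of `W` is at most the codimension of its orthogonal space in the
complementary degree. -/
lemma dA_le_cd_perp (hφ : Deg φ D) {j : ℕ} (hj : j ≤ D)
    {W : Submodule K (MvPolynomial (Fin n) K)} [Module.Finite K W]
    (hW : W ≤ homogeneousSubmodule (Fin n) K (D - j)) : dA φ W ≤ cd (perp φ W) j := by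
  let X := (homogeneousSubmodule (Fin n) K j).map (perp φ W).mkQ
  let Θ : W →ₗ[K] Module.Dual K X :=
    { toFun := fun w => ((perp φ W).liftQ (φ.comp (LinearMap.mulLeft K
        (w : MvPolynomial (Fin n) K))) (by
          intro u hu
          rw [LinearMap.mem_ker]
          change φ ((w : MvPolynomial (Fin n) K) * u) = 0
          rw [mul_comm]
          exact hu _ w.2)).comp X.subtype
      map_add' := by
        intro a b
        apply LinearMap.ext
        rintro ⟨_, ⟨w, hw, rfl⟩⟩
        change φ (((a + b : W) : MvPolynomial (Fin n) K) * w) =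
          φ ((a : MvPolynomial (Fin n) K) * w) + φ ((b : MvPolynomial (Fin n) K) * w)
        rw [Submodule.coe_add, add_mul, map_add]
      map_smul' := by
        intro r a
        apply LinearMap.ext
        rintro ⟨_, ⟨w, hw, rfl⟩⟩
        change φ (((r • a : W) : MvPolynomial (Fin n) K) * w) =
          r • φ ((a : MvPolynomial (Fin n) K) * w)
        rw [Submodule.coe_smul, smul_mul_assoc, map_smul] }
  have hker : LinearMap.ker Θ = LinearMap.ker ((annI φ).mkQ.comp W.subtype) := by
    ext w
    rw [LinearMap.mem_ker, LinearMap.mem_ker]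
    constructor
    · intro h
      refine (Submodule.Quotient.mk_eq_zero (annI φ)).2 ?_
      rw [mem_annI]
      apply annP_of_homog hφ (by omega : D - j ≤ D) (hW w.2)
      intro v hv
      have e0 : D - (D - j) = j := by omega
      rw [e0] at hv
      exact LinearMap.congr_fun h ⟨(perp φ W).mkQ v, ⟨v, hv, rfl⟩⟩
    · intro h
      have h1 : AnnP φ (w : MvPolynomial (Fin n) K) :=
        (Submodule.Quotient.mk_eq_zero (annI φ)).1 h
      apply LinearMap.ext
      rintro ⟨_, ⟨v, hv, rfl⟩⟩
      exact h1 v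
  have e1 := LinearMap.finrank_range_add_finrank_ker Θ
  have e2 := LinearMap.finrank_range_add_finrank_ker ((annI φ).mkQ.comp W.subtype)
  have e3 : dA φ W = finrank K (LinearMap.range ((annI φ).mkQ.comp W.subtype)) := by
    rw [LinearMap.range_comp, Submodule.range_subtype]
    rfl
  have e4 : finrank K (LinearMap.range Θ) ≤ finrank K (Module.Dual K X) :=
    Submodule.finrank_le _
  rw [Subspace.dual_finrank_eq] at e4
  rw [hker] at e1
  have e5 : cd (perp φ W) j = finrank K X := rfl
  omega

/-- Orthogonal subspaces in complementary degrees. -/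
lemma orth_dim (hφ : Deg φ D) {j : ℕ} (hj : j ≤ D)
    {W W' : Submodule K (MvPolynomial (Fin n) K)} (hW : W ≤ homogeneousSubmodule (Fin n) K j)
    (hW' : W' ≤ homogeneousSubmodule (Fin n) K (D - j))
    (h : ∀ w ∈ W, ∀ w' ∈ W', φ (w * w') = 0) : dA φ W + dA φ W' ≤ hil φ j := by
  have : Module.Finite K W' := Submodule.finiteDimensional_of_le hW'
  have h1 := finrank_two (homogeneousSubmodule (Fin n) K j) (annI φ) (perp φ W') (by
    intro g hg w _
    exact hg w)
  have h2 := dA_le_cd_perp hφ hj hW'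
  have h3 : dA φ W ≤ finrank K ((homogeneousSubmodule (Fin n) K j ⊓ perp φ W').map
      (annI φ).mkQ) := by
    have : Module.Finite K (homogeneousSubmodule (Fin n) K j ⊓ perp φ W' :
      Submodule K (MvPolynomial (Fin n) K)) := Submodule.finiteDimensional_of_le inf_le_left
    apply Submodule.finrank_mono
    apply Submodule.map_mono
    intro w hw
    exact ⟨hW hw, fun w' hw' => h w hw w' hw'⟩
  unfold hil
  unfold cd at h2 ⊢
  omega

/-- Symmetry of the Hilbert function. -/
lemma hil_symm_le (hφ : Deg φ D) {j : ℕ} (hj : j ≤ D) : hil φ (D - j) ≤ hil φ j := by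
  have h1 := dA_le_cd_perp (φ := φ) (W := homogeneousSubmodule (Fin n) K (D - j)) hφ hj le_rfl
  have h2 : cd (perp φ (homogeneousSubmodule (Fin n) K (D - j))) j ≤ cd (annI φ) j := by
    apply cd_mono
    intro g hg w _
    exact hg w
  exact h1.trans h2

lemma hil_symm (hφ : Deg φ D) {j : ℕ} (hj : j ≤ D) : hil φ (D - j) = hil φ j := by
  apply le_antisymm (hil_symm_le hφ hj)
  have h1 := hil_symm_le (φ := φ) (D := D) (j := D - j) hφ (by omega)
  have e : D - (D - j) = j := by omega
  rwa [e] at h1

lemma annP_of_forms (hφ : Deg φ D) {i : ℕ} {b : MvPolynomial (Fin n) K}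
    (hb : b.IsHomogeneous i) (r : ℕ) (hr : i + r ≤ D)
    (h : ∀ v : MvPolynomial (Fin n) K, v.IsHomogeneous r → AnnP φ (v * b)) : AnnP φ b := by
  induction r with
  | zero =>
    have := h 1 (isHomogeneous_one _ _)
    rwa [one_mul] at this
  | succ r ih =>
    apply ih (by omega)
    intro v hv
    apply annP_of_X hφ (i := r + i) (by omega) (hv.mul hb)
    intro x
    rw [← mul_assoc]
    apply h
    have := (isHomogeneous_X K x).mul hv
    rwa [add_comm] at this

section

variable [Infinite K]

/-- A general linear form is injective on a small subspace. -/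
lemma inj_small (hφ : Deg φ D) {j : ℕ} (hj : j ≤ D)
    {W : Submodule K (MvPolynomial (Fin n) K)} (hW : W ≤ homogeneousSubmodule (Fin n) K j)
    (hd : dA φ W ≤ D - j) :
    ∃ Q : MvPolynomial (Fin n) K, Q ≠ 0 ∧ ∀ a : Fin n → K, eval a Q ≠ 0 →
      ∀ w ∈ W, AnnP φ (lin a * w) → AnnP φ w := by
  have : Module.Finite K W := Submodule.finiteDimensional_of_le hW
  obtain ⟨Q, hQ, h⟩ := green_zero (D - j) (perp φ W) ((cd_perp_le _).trans hd)
  refine ⟨Q, hQ, fun a ha w hw hlw => ?_⟩
  apply annP_of_homog hφ hj (hW hw)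
  intro v hv
  have h1 := le_of_cd_zero (h a ha) hv
  rw [mul_comm]
  rcases Nat.eq_zero_or_pos (D - j) with h0 | h0
  · rw [h0] at h1
    exact h1 w hw
  · obtain ⟨s, hs⟩ : ∃ s, D - j = s + 1 := ⟨D - j - 1, by omega⟩
    rw [hs] at h1
    obtain ⟨u, hu, v', hv', rfl⟩ := Submodule.mem_sup.1 h1
    obtain ⟨g, -, rfl⟩ := Submodule.mem_map.1 hv'
    rw [add_mul, map_add, hu w hw, zero_add, LinearMap.mulLeft_apply]
    have e : lin a * g * w = (lin a * w) * g := by ring
    rw [e]
    exact hlw g

/-- The kernel of a general linear form has dimension at most one if the Hilbert function is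
small. -/
lemma ker_small (hφ : Deg φ D) {j : ℕ} (hj : j ≤ D) (hd : hil φ (D - j) ≤ 2 * (D - j)) :
    ∃ Q : MvPolynomial (Fin n) K, Q ≠ 0 ∧ ∀ a : Fin n → K, eval a Q ≠ 0 →
      ∀ w w' : MvPolynomial (Fin n) K, w.IsHomogeneous j → w'.IsHomogeneous j →
        AnnP φ (lin a * w) → AnnP φ (lin a * w') → ¬ AnnP φ w →
        ∃ c : K, AnnP φ (w' - C c * w) := by
  obtain ⟨Q, hQ, h⟩ := green_one (D - j) (annI φ) hd
  refine ⟨Q, hQ, fun a ha w w' hw hw' hlw hlw' hne => ?_⟩
  have h1 := h a ha
  unfold cd at h1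
  rw [finrank_le_one_iff] at h1
  obtain ⟨⟨_, ⟨v0, hv0, rfl⟩⟩, hall⟩ := h1
  -- the functionals vanish on the cut
  have hcut : ∀ u : MvPolynomial (Fin n) K, AnnP φ (lin a * u) →
      ∀ g ∈ cut (annI φ) (lin a) (D - j), φ (u * g) = 0 := by
    intro u hu g hg
    rcases Nat.eq_zero_or_pos (D - j) with h0 | h0
    · rw [h0] at hg
      rw [mul_comm]
      exact hg u
    · obtain ⟨s, hs⟩ : ∃ s, D - j = s + 1 := ⟨D - j - 1, by omega⟩
      rw [hs] at hg
      obtain ⟨x, hx, y, hy, rfl⟩ := Submodule.mem_sup.1 hg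
      obtain ⟨z, -, rfl⟩ := Submodule.mem_map.1 hy
      rw [mul_add, map_add, mul_comm u x, hx u, zero_add, LinearMap.mulLeft_apply]
      have e : u * (lin a * z) = (lin a * u) * z := by ring
      rw [e]
      exact hu z
  have hprop : ∀ v : MvPolynomial (Fin n) K, v.IsHomogeneous (D - j) → ∃ c : K,
      ∀ u : MvPolynomial (Fin n) K, AnnP φ (lin a * u) → φ (u * v) = c * φ (u * v0) := by
    intro v hv
    obtain ⟨c, hc⟩ := hall ⟨_, ⟨v, hv, rfl⟩⟩
    refine ⟨c, fun u hu => ?_⟩
    have h2 : c • (cut (annI φ) (lin a) (D - j)).mkQ v0 =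
        (cut (annI φ) (lin a) (D - j)).mkQ v := congrArg Subtype.val hc
    rw [← map_smul, ← sub_eq_zero, ← map_sub] at h2
    have h3 : c • v0 - v ∈ cut (annI φ) (lin a) (D - j) :=
      (Submodule.Quotient.mk_eq_zero _).1 h2
    have h4 := hcut u hu _ h3
    rw [mul_sub, map_sub, mul_smul_comm, map_smul, sub_eq_zero] at h4
    exact h4.symm
  have hw0 : φ (w * v0) ≠ 0 := by
    intro h0
    apply hne
    apply annP_of_homog hφ hj hw
    intro v hv
    obtain ⟨c, hc⟩ := hprop v hv
    rw [hc w hlw, h0, mul_zero]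
  refine ⟨φ (w' * v0) / φ (w * v0), ?_⟩
  have hC : (C (φ (w' * v0) / φ (w * v0)) * w).IsHomogeneous j := by
    have := (isHomogeneous_C (Fin n) (φ (w' * v0) / φ (w * v0))).mul hw
    rwa [zero_add] at this
  apply annP_of_homog hφ hj (hw'.sub hC)
  intro v hv
  obtain ⟨c, hc⟩ := hprop v hv
  rw [sub_mul, map_sub, hc w' hlw', mul_assoc, ← smul_eq_C_mul, map_smul, hc w hlw,
    smul_eq_mul]
  field_simp
  ring

/-- **Main theorem.** -/
theorem exists_inj (hφ : Deg φ D) {i : ℕ} (hi : 2 * i + 1 ≤ D)
    (h1 : hil φ (i + 1) ≤ 2 * (D - (i + 1))) {p : ℕ} (hp : p ≤ D - 2 * i)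
    (h2 : hil φ (i + p) ≤ D + 1) : ∃ a : Fin n → K, Inj φ (lin a) i := by
  by_contra hcon
  push Not at hcon
  have hb : ∀ a : Fin n → K, ∃ b : MvPolynomial (Fin n) K, b.IsHomogeneous i ∧
      AnnP φ (lin a * b) ∧ ¬ AnnP φ b := by
    intro a
    have := hcon a
    unfold Inj at this
    push Not at this
    exact this
  -- the generic conditions
  obtain ⟨Q0, hQ0, hmax⟩ : ∃ Q : MvPolynomial (Fin n) K, Q ≠ 0 ∧ ∀ a : Fin n → K,
      eval a Q ≠ 0 → MaxAt φ D i a := by
    obtain ⟨Q, hQ, h⟩ := exists_poly_max (fun x : Fin n => TT φ D i (X x))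
    refine ⟨Q, hQ, fun a ha a' => ?_⟩
    have := h a ha a'
    rwa [sum_TT, sum_TT] at this
  obtain ⟨Q1, hQ1, hker⟩ := ker_small (φ := φ) (D := D) (j := i + 1) hφ (by omega) (by
    rw [hil_symm hφ (by omega)]
    exact h1)
  let U : Set (Fin n → K) := {a | eval a Q0 ≠ 0 ∧ eval a Q1 ≠ 0}
  let G : Set (MvPolynomial (Fin n) K) := {b | b.IsHomogeneous i ∧ ∃ a ∈ U, AnnP φ (lin a * b)}
  let N : Submodule K (MvPolynomial (Fin n) K) := Submodule.span K G
  have hGG : ∀ b ∈ G, ∀ b' ∈ G, AnnP φ (b * b') := by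
    rintro b ⟨hbi, a, haU, hab⟩ b' ⟨hbi', a', haU', hab'⟩
    apply annP_of_X hφ (i := i + i) (by omega) (hbi.mul hbi')
    intro x
    by_cases hc : AnnP φ (lin a' * b)
    · obtain ⟨c, -, hc2⟩ := kernel_prop hφ (by omega : i < D) (hmax a' haU'.1) hbi hc x
      have e : X x * (b * b') = (X x * b - lin a' * c) * b' + (lin a' * b') * c := by ring
      rw [e]
      exact (hc2.mul_right b').add (hab'.mul_right c)
    · have hxb : (X x * b).IsHomogeneous (i + 1) := by
        have := (isHomogeneous_X K x).mul hbi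
        rwa [add_comm] at this
      have hlb : (lin a' * b).IsHomogeneous (i + 1) := by
        have := (lin_hom a').mul hbi
        rwa [add_comm] at this
      obtain ⟨c, hc2⟩ := hker a haU.2 (lin a' * b) (X x * b) hlb hxb (by
        have e : lin a * (lin a' * b) = lin a' * (lin a * b) := by ring
        rw [e]
        exact hab.mul_left _) (by
        have e : lin a * (X x * b) = X x * (lin a * b) := by ring
        rw [e]
        exact hab.mul_left _) hc
      have e : X x * (b * b') = (X x * b - C c * (lin a' * b)) * b' + (lin a' * b') * (C c * b) :=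
        by ring
      rw [e]
      exact (hc2.mul_right b').add (hab'.mul_right _)
  have hNN : N * N ≤ annI φ := by
    rw [Submodule.span_mul_span, Submodule.span_le]
    rintro _ ⟨b, hb, b', hb', rfl⟩
    exact hGG b hb b' hb'
  have hNle : N ≤ homogeneousSubmodule (Fin n) K i := by
    rw [Submodule.span_le]
    rintro b ⟨hbi, -⟩
    exact hbi
  let W : ℕ → Submodule K (MvPolynomial (Fin n) K) := fun r =>
    homogeneousSubmodule (Fin n) K r * N
  have hWle : ∀ r, W r ≤ homogeneousSubmodule (Fin n) K (i + r) := by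
    intro r
    rw [Submodule.mul_le]
    intro v hv b hb
    have h3 : b.IsHomogeneous i := hNle hb
    have := IsHomogeneous.mul hv h3
    rw [add_comm] at this
    exact this
  have hWW : ∀ r r', ∀ w ∈ W r, ∀ w' ∈ W r', φ (w * w') = 0 := by
    intro r r' w hw w' hw'
    have h3 : W r * W r' ≤ annI φ := by
      change homogeneousSubmodule (Fin n) K r * N * (homogeneousSubmodule (Fin n) K r' * N) ≤ _
      rw [mul_mul_mul_comm, Submodule.mul_le]
      intro u _ v hv
      exact AnnP.mul_left (hNN hv) u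
    have h4 := h3 (Submodule.mul_mem_mul hw hw') 1
    rwa [mul_one] at h4
  have hlow : ∀ r, i + r ≤ D → D - (i + r) + 1 ≤ dA φ (W r) := by
    intro r hr
    by_contra hlt
    obtain ⟨Q2, hQ2, hinj⟩ := inj_small hφ hr (hWle r) (by omega)
    obtain ⟨a, ha⟩ := exists_ne_zero (mul_ne_zero (mul_ne_zero hQ0 hQ1) hQ2)
    rw [map_mul, map_mul] at ha
    have haU : a ∈ U := ⟨left_ne_zero_of_mul (left_ne_zero_of_mul ha),
      right_ne_zero_of_mul (left_ne_zero_of_mul ha)⟩
    obtain ⟨b, hbi, hab, hbn⟩ := hb a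
    apply hbn
    apply annP_of_forms hφ hbi r hr
    intro v hv
    apply hinj a (right_ne_zero_of_mul ha)
    · exact Submodule.mul_mem_mul hv (Submodule.subset_span ⟨hbi, a, haU, hab⟩)
    · have e : lin a * (v * b) = v * (lin a * b) := by ring
      rw [e]
      exact hab.mul_left _
  have e1 : D - (i + p) = i + (D - 2 * i - p) := by omega
  have h5 := orth_dim hφ (by omega : i + p ≤ D) (hWle p)
    (W' := W (D - 2 * i - p)) (by rw [e1]; exact hWle _) (hWW _ _)
  have h6 := hlow p (by omega)
  have h7 := hlow (D - 2 * i - p) (by omega)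
  omega

end

end Pool.Agent.TH274.GR
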